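import Pool.Agent.TwoFam.Q3

/-!
Two families with intersections of size two: the conjectured bound for systems on a ground set with
at most `a + b - 1` points.
-/

set_option autoImplicit false

namespace Pool.Agent.Results.MP_20855c_co.AlmostGround

/-- the pairs `(A i, B i)` form an `(a,b)`-system -/
def IsSystem (a b : ℕ) {ι β : Type} [DecidableEq β] (A B : ι → Finset β) : Prop :=
  (∀ i, (A i).card = a ∧ (B i).card = b ∧ (A i ∩ B i).card = 2) ∧
    ∀ i j k, i ≠ j → ¬ A i ∩ B j ⊆ A k ∩ B k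

/-- `S(a,b) = ∑_{i=2}^{a} 2^{i-2} (a+b-2i choose a-i)` -/
def S (a b : ℕ) : ℕ := ∑ i ∈ Finset.Icc 2 a, 2 ^ (i - 2) * (a + b - 2 * i).choose (a - i)

/-- An `(a,b)`-system on a ground set `X` with at most `a + b - 1` points has at most `S(a,b)` pairs,
if `a + b` is even or the sets `A k ∩ B k` do not form a partition of `X`. -/
theorem result (a b : ℕ) (ha : 2 ≤ a) (hab : a ≤ b) {ι β : Type} [Fintype ι] [DecidableEq β]
    (A B : ι → Finset β) (h : IsSystem a b A B) (X : Finset β) (hX : ∀ i, A i ∪ B i ⊆ X)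
    (hXc : X.card ≤ a + b - 1)
    (hP : Even (a + b) ∨ ¬ ∀ x ∈ X, ∃! P : Finset β, x ∈ P ∧ ∃ k, P = A k ∩ B k) :
    Fintype.card ι ≤ S a b := by
  refine Pool.Agent.TwoFam.final a b ha hab A B (fun i => (h.1 i).1) (fun i => (h.1 i).2.1)
    (fun i => (h.1 i).2.2) h.2 X hX hXc ?_
  rcases hP with hP | hP
  · exact Or.inl hP
  · right; right
    push Not at hP
    obtain ⟨x, hx, hn⟩ := hP
    by_cases hc : ∃ k, x ∈ A k ∩ B k
    · right
      obtain ⟨k, hk⟩ := hc
      by_contra hcon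
      push Not at hcon
      apply hn
      refine ⟨A k ∩ B k, ⟨hk, k, rfl⟩, ?_⟩
      rintro P ⟨hxP, l, rfl⟩
      by_contra hne
      exact (Finset.disjoint_left.1 (hcon l k hne) hxP) hk
    · left
      push Not at hc
      exact ⟨x, hx, hc⟩

end Pool.Agent.Results.MP_20855c_co.AlmostGround
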