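import Pool.Agent.Helper123.TwoFam.Struct

set_option autoImplicit false

namespace Pool.Agent.Results.MP_20855c_co.CaseFour

/-- Every `(a,b)`-system with `b ≥ a ≥ 4` has fewer than `C(a+b-2, a-2)` pairs; for `a = 4` this
is the inequality `|I| ≤ S(4,b)` of Q1. -/
theorem result : ∀ a b : ℕ, 4 ≤ a → a ≤ b →
    ∀ n : ℕ, ∀ A B : Fin n → Finset ℕ,
      (∀ i, (A i).card = a) →
      (∀ i, (B i).card = b) →
      (∀ i, (A i ∩ B i).card = 2) →
      (∀ i j k : Fin n, i ≠ j → ¬ (A i ∩ B j ⊆ A k ∩ B k)) →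
      n < Nat.choose (a + b - 2) (a - 2) ∧
      (a = 4 → n ≤ ∑ i ∈ Finset.Icc 2 a, 2 ^ (i - 2) * Nat.choose (a + b - 2 * i) (a - i)) := by
  intro a b ha hab n A B hA hB hAB h
  have key := Pool.Agent.Helper123.TwoFam.main ha n A B hA hB hAB h
  refine ⟨key, fun h4 => ?_⟩
  subst h4
  obtain ⟨c, rfl⟩ := Nat.exists_eq_add_of_le hab
  have e : Finset.Icc 2 4 = {2, 3, 4} := by decide
  rw [e, Finset.sum_insert (by decide), Finset.sum_insert (by decide), Finset.sum_singleton]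
  have e1 : 4 + (4 + c) - 2 * 2 = c + 4 := by omega
  have e2 : 4 + (4 + c) - 2 * 3 = c + 2 := by omega
  have e3 : 4 + (4 + c) - 2 * 4 = c := by omega
  have e4 : 4 + (4 + c) - 2 = c + 6 := by omega
  rw [e1, e2, e3]
  rw [e4] at key
  have h1 : Nat.choose (c + 6) (4 - 2) = Nat.choose (c + 4) 2 + (2 * c + 9) := by
    have h2 : Nat.choose (c + 6) 2 = Nat.choose (c + 5) 1 + Nat.choose (c + 5) 2 :=
      Nat.choose_succ_succ (c + 5) 1
    have h3 : Nat.choose (c + 5) 2 = Nat.choose (c + 4) 1 + Nat.choose (c + 4) 2 :=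
      Nat.choose_succ_succ (c + 4) 1
    rw [Nat.choose_one_right] at h2 h3
    show Nat.choose (c + 6) 2 = _
    omega
  rw [h1] at key
  have h5 : Nat.choose (c + 2) (4 - 3) = c + 2 := Nat.choose_one_right _
  have h6 : Nat.choose c (4 - 4) = 1 := Nat.choose_zero_right _
  rw [h5, h6]
  norm_num
  omega

end Pool.Agent.Results.MP_20855c_co.CaseFour
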